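import Pool.Agent.H32.FJ6

set_option autoImplicit false

namespace Pool.Agent.Results.MP_54c2ef_al.GoodAut

universe u

/-- `augPow K n m` is the `m`-th power of the augmentation ideal of the free associative algebra:
the span of all monomials of degree at least `m`. -/
def augPow (K : Type u) [Field K] (n m : ℕ) : Submodule K (FreeAlgebra K (Fin n)) :=
  Submodule.span K {w | ∃ l : List (Fin n), m ≤ l.length ∧ w = (l.map (FreeAlgebra.ι K)).prod}

/-- Every good endomorphism of a free associative algebra over any field is an automorphism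
(with either reading of the order of the product). -/
theorem result (K : Type u) [Field K] (n : ℕ)
    (φ : FreeAlgebra K (Fin n) →ₐ[K] FreeAlgebra K (Fin n))
    (hgood : ∀ m : ℕ, 1 ≤ m →
      ∃ (ψ : FreeAlgebra K (Fin n) →ₐ[K] FreeAlgebra K (Fin n))
        (θ : FreeAlgebra K (Fin n) ≃ₐ[K] FreeAlgebra K (Fin n)),
        ((∀ f, φ f = ψ (θ f)) ∨ (∀ f, φ f = θ (ψ f))) ∧
          ∀ i, ψ (FreeAlgebra.ι K i) - FreeAlgebra.ι K i ∈ augPow K n m) :
    Function.Bijective φ := by
  by_cases hA : ∀ m, ∃ θ : FreeAlgebra K (Fin n) ≃ₐ[K] FreeAlgebra K (Fin n), ∀ i,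
      φ (θ.symm (FreeAlgebra.ι K i)) - FreeAlgebra.ι K i ∈ Pool.Agent.H32.FJ.Ipow K (Fin n) m
  · exact Pool.Agent.H32.FJ.formA φ hA
  · push Not at hA
    obtain ⟨m0, hm0⟩ := hA
    refine Pool.Agent.H32.FJ.formB φ fun m => ?_
    obtain ⟨ψ, θ, h | h, hψ⟩ := hgood (m + m0 + 1) (by omega)
    · obtain ⟨i, hi⟩ := hm0 θ
      refine absurd (Pool.Agent.H32.FJ.Ipow_anti (show m0 ≤ m + m0 + 1 by omega) ?_) hi
      rw [h, AlgEquiv.apply_symm_apply]
      exact hψ i
    · refine ⟨θ, fun i => Pool.Agent.H32.FJ.Ipow_anti (show m ≤ m + m0 + 1 by omega) ?_⟩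
      rw [h, AlgEquiv.symm_apply_apply]
      exact hψ i

end Pool.Agent.Results.MP_54c2ef_al.GoodAut
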